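import Pool.Agent.W273.VR.Hom

/-!
Alternating chains: boundaries, elementary chains, elementary collapses, push-forwards.
-/

set_option autoImplicit false

namespace X225.Vr

open Finset Pool.Agent.W273.VR

variable {V : Type} [Fintype V] [DecidableEq V]

lemma boundary_alt {m : ℕ} {w : (Fin (m + 1) → V) → ℤ}
    (hw : ∀ (v : Fin (m + 1) → V) (σ : Equiv.Perm (Fin (m + 1))),
      w (v ∘ σ) = (σ.sign : ℤ) * w v)
    (v : Fin m → V) (σ : Equiv.Perm (Fin m)) :
    boundary w (v ∘ σ) = (σ.sign : ℤ) * boundary w v := by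
  unfold boundary
  rw [Finset.mul_sum]
  refine sum_congr rfl fun x _ => ?_
  have h1 : (Fin.cons x (v ∘ σ) : Fin (m + 1) → V) =
      (Fin.cons x v : Fin (m + 1) → V) ∘ (Equiv.Perm.decomposeFin.symm (0, σ)) := by
    funext j
    refine Fin.cases ?_ (fun j => ?_) j
    · simp
    · simp
  rw [h1, hw, Equiv.Perm.decomposeFin.symm_sign]
  simp

lemma boundary_boundary {m : ℕ} {w : (Fin (m + 2) → V) → ℤ}
    (hw : ∀ (v : Fin (m + 2) → V) (σ : Equiv.Perm (Fin (m + 2))),
      w (v ∘ σ) = (σ.sign : ℤ) * w v) : boundary (boundary w) = 0 := by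
  funext v
  change ∑ x, ∑ y, w (Fin.cons y (Fin.cons x v)) = 0
  have h1 : ∀ x y : V, w (Fin.cons y (Fin.cons x v)) = - w (Fin.cons x (Fin.cons y v)) := by
    intro x y
    have h2 : (Fin.cons y (Fin.cons x v : Fin (m + 1) → V) : Fin (m + 2) → V) =
        (Fin.cons x (Fin.cons y v : Fin (m + 1) → V) : Fin (m + 2) → V) ∘
          (Equiv.swap 0 1) := by
      funext j
      refine Fin.cases ?_ (fun j => Fin.cases ?_ (fun j => ?_) j) j
      · simp only [Function.comp_apply, Equiv.swap_apply_left, Fin.cons_zero]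
        rfl
      · change _ = (Fin.cons x (Fin.cons y v : Fin (m + 1) → V) : Fin (m + 2) → V)
          (Equiv.swap 0 1 1)
        rw [Equiv.swap_apply_right]
        rfl
      · change _ = (Fin.cons x (Fin.cons y v : Fin (m + 1) → V) : Fin (m + 2) → V)
          (Equiv.swap 0 1 j.succ.succ)
        rw [Equiv.swap_apply_of_ne_of_ne (Fin.succ_ne_zero _) (by
          intro h
          have : (Fin.succ j) = 0 := Fin.succ_injective _ (by simpa using h)
          exact Fin.succ_ne_zero _ this)]
        rfl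
    rw [h2, hw, Equiv.Perm.sign_swap (by simp)]
    simp
  have h3 : ∑ x, ∑ y, w (Fin.cons y (Fin.cons x v)) =
      - ∑ x, ∑ y, w (Fin.cons y (Fin.cons x v)) := by
    conv_lhs => rw [Finset.sum_comm]
    rw [← Finset.sum_neg_distrib]
    refine sum_congr rfl fun x _ => ?_
    rw [← Finset.sum_neg_distrib]
    exact sum_congr rfl fun y _ => h1 y x
  omega

lemma boundary_add {m : ℕ} (f g : (Fin (m + 1) → V) → ℤ) :
    boundary (f + g) = boundary f + boundary g := by
  funext v
  simp [boundary, Finset.sum_add_distrib]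

lemma boundary_sub {m : ℕ} (f g : (Fin (m + 1) → V) → ℤ) :
    boundary (f - g) = boundary f - boundary g := by
  funext v
  simp [boundary, Finset.sum_sub_distrib]

lemma boundary_zero {m : ℕ} : boundary (0 : (Fin (m + 1) → V) → ℤ) = 0 := by
  funext v
  simp [boundary]

omit [Fintype V] in
lemma chain_zero (K : Finset V → Prop) (m : ℕ) : IsChain K m (0 : (Fin m → V) → ℤ) :=
  ⟨fun v h => absurd rfl h, fun v h => absurd rfl h, fun v σ => by simp⟩

omit [Fintype V] in
lemma chain_mono {K L : Finset V → Prop} {m : ℕ} {f : (Fin m → V) → ℤ} (h : IsChain K m f)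
    (hKL : ∀ σ, K σ → L σ) : IsChain L m f :=
  ⟨fun v hv => hKL _ (h.support v hv), h.distinct, h.alternating⟩

omit [Fintype V] in
lemma chain_add {K : Finset V → Prop} {m : ℕ} {f g : (Fin m → V) → ℤ} (hf : IsChain K m f)
    (hg : IsChain K m g) : IsChain K m (f + g) := by
  have key : ∀ v, (f + g) v ≠ 0 → f v ≠ 0 ∨ g v ≠ 0 := by
    intro v hv
    by_contra hcon
    push Not at hcon
    apply hv
    rw [Pi.add_apply, hcon.1, hcon.2, add_zero]
  refine ⟨?_, ?_, ?_⟩
  · intro v hv
    rcases key v hv with h | h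
    · exact hf.support v h
    · exact hg.support v h
  · intro v hv
    rcases key v hv with h | h
    · exact hf.distinct v h
    · exact hg.distinct v h
  · intro v σ
    rw [Pi.add_apply, Pi.add_apply, hf.alternating, hg.alternating, mul_add]

/-- the elementary chain of an ordered simplex -/
def el {m : ℕ} (t : Fin m → V) (v : Fin m → V) : ℤ :=
  (Matrix.of fun i j => if v i = t j then (1 : ℤ) else 0).det

omit [Fintype V] in
lemma el_alt {m : ℕ} (t v : Fin m → V) (σ : Equiv.Perm (Fin m)) :
    el t (v ∘ σ) = (σ.sign : ℤ) * el t v := by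
  unfold el
  have h1 : (Matrix.of fun i j => if (v ∘ σ) i = t j then (1 : ℤ) else 0) =
      (Matrix.of fun i j => if v i = t j then (1 : ℤ) else 0).submatrix σ id := rfl
  rw [h1, Matrix.det_permute, Int.cast_id]

omit [Fintype V] in
lemma el_support {m : ℕ} (t v : Fin m → V) (h : el t v ≠ 0) :
    ∃ π : Equiv.Perm (Fin m), ∀ j, v (π j) = t j := by
  unfold el at h
  rw [Matrix.det_apply] at h
  obtain ⟨τ, -, hτ⟩ := Finset.exists_ne_zero_of_sum_ne_zero h
  refine ⟨τ, fun j => ?_⟩
  by_contra hne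
  apply hτ
  have hp : ∏ i, (Matrix.of fun i j => if v i = t j then (1 : ℤ) else 0) (τ i) i = 0 := by
    refine Finset.prod_eq_zero (Finset.mem_univ j) ?_
    rw [Matrix.of_apply, if_neg hne]
  rw [hp, smul_zero]

omit [Fintype V] in
lemma el_self {m : ℕ} (t : Fin m → V) (ht : Function.Injective t) : el t t = 1 := by
  unfold el
  have : (Matrix.of fun i j => if t i = t j then (1 : ℤ) else 0) = 1 := by
    ext i j
    rw [Matrix.of_apply, Matrix.one_apply]
    by_cases hij : i = j
    · rw [if_pos hij, if_pos (by rw [hij])]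
    · rw [if_neg hij, if_neg fun h => hij (ht h)]
  rw [this, Matrix.det_one]

omit [Fintype V] in
lemma exists_perm {m : ℕ} (v t : Fin m → V) (hv : Function.Injective v)
    (h : univ.image v = univ.image t) : ∃ π : Equiv.Perm (Fin m), v = t ∘ π := by
  have h1 : ∀ i, ∃ j, t j = v i := by
    intro i
    have : v i ∈ univ.image t := by
      rw [← h]
      exact mem_image_of_mem _ (mem_univ _)
    simpa using this
  choose f hf using h1
  have hfi : Function.Injective f := by
    intro i j hij
    apply hv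
    rw [← hf i, ← hf j, hij]
  exact ⟨Equiv.ofBijective f (Finite.injective_iff_bijective.1 hfi), by
    funext i
    exact (hf i).symm⟩

omit [Fintype V] in
lemma exists_ordering (σ : Finset V) (m : ℕ) (h : σ.card = m) :
    ∃ t : Fin m → V, Function.Injective t ∧ univ.image t = σ := by
  let e := σ.equivFinOfCardEq h
  refine ⟨fun i => (e.symm i).1, ?_, ?_⟩
  · intro i j hij
    exact e.symm.injective (Subtype.ext hij)
  · ext x
    simp only [mem_image, mem_univ, true_and]
    constructor
    · rintro ⟨i, rfl⟩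
      exact (e.symm i).2
    · intro hx
      exact ⟨e ⟨x, hx⟩, by simp⟩

omit [Fintype V] in
lemma image_cons {m : ℕ} (x : V) (v : Fin m → V) :
    univ.image (Fin.cons x v : Fin (m + 1) → V) = insert x (univ.image v) := by
  ext y
  simp only [mem_image, mem_univ, true_and, mem_insert]
  constructor
  · rintro ⟨i, rfl⟩
    refine Fin.cases ?_ (fun j => ?_) i
    · left
      rfl
    · right
      exact ⟨j, rfl⟩
  · rintro (rfl | ⟨j, rfl⟩)
    · exact ⟨0, rfl⟩
    · exact ⟨j.succ, rfl⟩

/-- elementary collapse, in terms of predicates -/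
def Step (P Q : Finset V → Prop) : Prop :=
  ∃ σ τ, P σ ∧ P τ ∧ σ ⊂ τ ∧ τ.card = σ.card + 1 ∧ (∀ ρ, P ρ → σ ⊂ ρ → ρ = τ) ∧
    ∀ ρ, Q ρ ↔ P ρ ∧ ρ ≠ σ ∧ ρ ≠ τ

lemma boundary_el {m : ℕ} (x₀ : V) (t₀ : Fin m → V)
    (ht : Function.Injective (Fin.cons x₀ t₀ : Fin (m + 1) → V)) :
    boundary (el (Fin.cons x₀ t₀ : Fin (m + 1) → V)) t₀ = 1 := by
  unfold boundary
  rw [sum_eq_single x₀, el_self _ ht]
  · intro x _ hx
    by_contra hne
    obtain ⟨π, hπ⟩ := el_support _ _ hne
    obtain ⟨j, hj⟩ : ∃ j, (Fin.cons x t₀ : Fin (m + 1) → V) j = x₀ := ⟨π 0, hπ 0⟩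
    revert hj
    refine Fin.cases ?_ (fun j => ?_) j
    · intro hj
      exact hx hj
    · intro hj
      have h1 : (Fin.cons x₀ t₀ : Fin (m + 1) → V) j.succ =
          (Fin.cons x₀ t₀ : Fin (m + 1) → V) 0 := hj
      exact Fin.succ_ne_zero _ (ht h1)
  · intro h
    exact absurd (mem_univ _) h

lemma push_step {P Q : Finset V → Prop} (h : Step P Q)
    (hP : ∀ σ, P σ → ∀ ρ, ρ ⊆ σ → ρ.Nonempty → P ρ) {q : ℕ}
    (z : (Fin (q + 1) → V) → ℤ) (hz : IsChain P (q + 1) z) (hd : boundary z = 0) :
    ∃ w : (Fin (q + 2) → V) → ℤ, IsChain P (q + 2) w ∧ IsChain Q (q + 1) (z - boundary w) := by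
  obtain ⟨σ, τ, hσ, hτ, hστ, hc, huniq, hQ⟩ := h
  obtain ⟨x₀, hx₀, hx₀σ⟩ := exists_of_ssubset hστ
  have hins : insert x₀ σ = τ := by
    apply eq_of_subset_of_card_le (insert_subset hx₀ hστ.subset)
    rw [card_insert_of_notMem hx₀σ]
    omega
  by_cases h1 : σ.card = q + 1
  · obtain ⟨t₀, ht₀, hi₀⟩ := exists_ordering σ (q + 1) h1
    have ht : Function.Injective (Fin.cons x₀ t₀ : Fin (q + 2) → V) := by
      rw [Fin.cons_injective_iff]
      refine ⟨?_, ht₀⟩
      rintro ⟨i, hi⟩
      apply hx₀σ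
      rw [← hi₀, ← hi]
      exact mem_image_of_mem _ (mem_univ _)
    have hit : univ.image (Fin.cons x₀ t₀ : Fin (q + 2) → V) = τ := by
      rw [image_cons, hi₀, hins]
    let w : (Fin (q + 2) → V) → ℤ := fun v => z t₀ * el (Fin.cons x₀ t₀ : Fin (q + 2) → V) v
    have hsupp : ∀ v, w v ≠ 0 → univ.image v = τ ∧ Function.Injective v := by
      intro v hv
      obtain ⟨π, hπ⟩ := el_support _ _ (right_ne_zero_of_mul hv)
      constructor
      · rw [← hit]
        ext y
        simp only [mem_image, mem_univ, true_and]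
        constructor
        · rintro ⟨i, rfl⟩
          exact ⟨π.symm i, by rw [← hπ, Equiv.apply_symm_apply]⟩
        · rintro ⟨i, rfl⟩
          exact ⟨π i, hπ i⟩
      · intro i j hij
        apply π.symm.injective
        apply ht
        rw [← hπ, ← hπ, Equiv.apply_symm_apply, Equiv.apply_symm_apply, hij]
    have hw : IsChain P (q + 2) w := by
      refine ⟨?_, ?_, ?_⟩
      · intro v hv
        rw [(hsupp v hv).1]
        exact hτ
      · intro v hv
        exact (hsupp v hv).2
      · intro v π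
        change z t₀ * _ = _ * (z t₀ * _)
        rw [el_alt]
        ring
    refine ⟨w, hw, ?_⟩
    have hpt : boundary w t₀ = z t₀ := by
      have := boundary_el x₀ t₀ ht
      unfold boundary at this ⊢
      change ∑ x, z t₀ * el (Fin.cons x₀ t₀ : Fin (q + 2) → V) (Fin.cons x t₀) = z t₀
      rw [← mul_sum, this, mul_one]
    have halt : ∀ (v : Fin (q + 1) → V) (π : Equiv.Perm (Fin (q + 1))),
        (z - boundary w) (v ∘ π) = (π.sign : ℤ) * (z - boundary w) v := by
      intro v π
      rw [Pi.sub_apply, Pi.sub_apply, hz.alternating, boundary_alt hw.alternating, mul_sub]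
    have hgen : ∀ v, (z - boundary w) v ≠ 0 → P (univ.image v) ∧ Function.Injective v := by
      intro v hv
      by_cases h2 : z v = 0
      · have h3 : boundary w v ≠ 0 := by
          intro h4
          apply hv
          rw [Pi.sub_apply, h2, h4, sub_zero]
        unfold boundary at h3
        obtain ⟨x, -, hx⟩ := exists_ne_zero_of_sum_ne_zero h3
        obtain ⟨h4, h5⟩ := hsupp _ hx
        rw [image_cons] at h4
        rw [Fin.cons_injective_iff] at h5
        refine ⟨hP τ hτ _ ?_ ⟨v 0, mem_image_of_mem _ (mem_univ _)⟩, h5.2⟩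
        rw [← h4]
        exact subset_insert _ _
      · exact ⟨hz.support v h2, hz.distinct v h2⟩
    refine ⟨?_, fun v hv => (hgen v hv).2, halt⟩
    intro v hv
    obtain ⟨h2, h3⟩ := hgen v hv
    have hcard : (univ.image v).card = q + 1 := by
      rw [card_image_of_injective _ h3, card_univ, Fintype.card_fin]
    rw [hQ]
    refine ⟨h2, ?_, ?_⟩
    · intro h4
      obtain ⟨π, rfl⟩ := exists_perm v t₀ h3 (h4.trans hi₀.symm)
      apply hv
      rw [halt, Pi.sub_apply, hpt, sub_self, mul_zero]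
    · intro h4
      rw [h4] at hcard
      omega
  · refine ⟨0, chain_zero _ _, ?_⟩
    rw [boundary_zero, sub_zero]
    refine ⟨?_, hz.distinct, hz.alternating⟩
    intro v hv
    have h2 := hz.support v hv
    have h3 := hz.distinct v hv
    have hcard : (univ.image v).card = q + 1 := by
      rw [card_image_of_injective _ h3, card_univ, Fintype.card_fin]
    rw [hQ]
    refine ⟨h2, ?_, ?_⟩
    · intro h4
      rw [h4] at hcard
      exact h1 hcard
    · intro h4
      have h5 : σ.card = q := by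
        rw [h4] at hcard
        omega
      obtain ⟨t₀, ht₀, hi₀⟩ := exists_ordering σ q h5
      have hit : univ.image (Fin.cons x₀ t₀ : Fin (q + 1) → V) = τ := by
        rw [image_cons, hi₀, hins]
      obtain ⟨π, rfl⟩ := exists_perm v (Fin.cons x₀ t₀ : Fin (q + 1) → V) h3 (h4.trans hit.symm)
      have h6 : boundary z t₀ = z (Fin.cons x₀ t₀) := by
        unfold boundary
        rw [sum_eq_single x₀]
        · intro x _ hx
          by_contra hne
          have h7 := hz.support _ hne
          have h8 := hz.distinct _ hne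
          rw [image_cons, hi₀] at h7
          rw [Fin.cons_injective_iff] at h8
          have h9 : x ∉ σ := by
            rw [← hi₀]
            intro h10
            simp only [mem_image, mem_univ, true_and] at h10
            exact h8.1 h10
          have h10 := huniq _ h7 (ssubset_insert h9)
          have h11 : x ∈ insert x₀ σ := by
            rw [hins, ← h10]
            exact mem_insert_self _ _
          rw [mem_insert] at h11
          rcases h11 with h11 | h11
          · exact hx h11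
          · exact h9 h11
        · intro h
          exact absurd (mem_univ _) h
      apply hv
      rw [hz.alternating, ← h6, hd]
      simp

omit [Fintype V] in
lemma step_down {P Q : Finset V → Prop} (h : Step P Q)
    (hP : ∀ σ, P σ → ∀ ρ, ρ ⊆ σ → ρ.Nonempty → P ρ) :
    (∀ σ, Q σ → P σ) ∧ ∀ σ, Q σ → ∀ ρ, ρ ⊆ σ → ρ.Nonempty → Q ρ := by
  obtain ⟨σ, τ, hσ, hτ, hστ, hc, huniq, hQ⟩ := h
  refine ⟨fun ρ h => ((hQ ρ).1 h).1, ?_⟩
  intro α hα ρ hρα hρ
  rw [hQ] at hα ⊢
  obtain ⟨hα1, hα2, hα3⟩ := hα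
  refine ⟨hP α hα1 ρ hρα hρ, ?_, ?_⟩
  · rintro rfl
    exact hα3 (huniq α hα1 (lt_of_le_of_ne hρα (Ne.symm hα2)))
  · rintro rfl
    exact hα3 (huniq α hα1 (lt_of_lt_of_le hστ hρα))

/-- a cycle of a complex is homologous to a cycle of the collapsed complex -/
theorem push {P Q : Finset V → Prop} (h : Relation.ReflTransGen Step P Q)
    (hP : ∀ σ, P σ → ∀ ρ, ρ ⊆ σ → ρ.Nonempty → P ρ) {q : ℕ}
    (z : (Fin (q + 1) → V) → ℤ) (hz : IsChain P (q + 1) z) (hd : boundary z = 0) :
    ∃ w : (Fin (q + 2) → V) → ℤ, IsChain P (q + 2) w ∧ IsChain Q (q + 1) (z - boundary w) := by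
  have key : (∀ σ, Q σ → ∀ ρ, ρ ⊆ σ → ρ.Nonempty → Q ρ) ∧ (∀ σ, Q σ → P σ) ∧
      ∃ w : (Fin (q + 2) → V) → ℤ, IsChain P (q + 2) w ∧
        IsChain Q (q + 1) (z - boundary w) := by
    induction h with
    | refl =>
      refine ⟨hP, fun _ h => h, 0, chain_zero _ _, ?_⟩
      rw [boundary_zero, sub_zero]
      exact hz
    | tail _ h2 ih =>
      obtain ⟨ih1, ih2, w, hw1, hw2⟩ := ih
      obtain ⟨w', hw1', hw2'⟩ := push_step h2 ih1 (z - boundary w) hw2 (by
        rw [boundary_sub, hd, boundary_boundary hw1.alternating, sub_zero])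
      obtain ⟨h3, h4⟩ := step_down h2 ih1
      refine ⟨h4, fun σ h => ih2 σ (h3 σ h), w + w', chain_add hw1 (chain_mono hw1' ih2), ?_⟩
      rw [boundary_add, ← sub_sub]
      exact hw2'
  exact key.2.2

end X225.Vr
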