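import Pool.Agent.X225.Vr.Vanish

/-!
Cubes: the top degree, monotonicity, degree zero, slices.
-/

set_option autoImplicit false

namespace X225.Vr

open Finset Pool.Agent.W273.VR

lemma vanish_cube {n r q : ℕ} (h : HomologyNonzero (VRFace n r) q) : q < 2 ^ r := by
  by_contra hcon
  push Not at hcon
  apply vanish r q (univ : Finset (Fin n → Bool)) hcon
  have h1 : (fun σ : Finset (Fin n → Bool) => VRFace n r σ ∧ σ ⊆ univ) = VRFace n r := by
    funext σ
    simp
  rw [h1]
  exact h

lemma hd_cons {n : ℕ} (a b : Bool) (x y : Fin n → Bool) :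
    hammingDist (Fin.cons a x : Fin (n + 1) → Bool) (Fin.cons b y) =
      (if a = b then 0 else 1) + hammingDist x y := by
  rw [hd_sum, hd_sum, Fin.sum_univ_succ]
  rfl

lemma mono_cube {n r q : ℕ} (h : HomologyNonzero (VRFace n r) q) :
    HomologyNonzero (VRFace (n + 1) r) q := by
  refine retract (fun x => (Fin.cons false x : Fin (n + 1) → Bool))
    (fun x => (Fin.tail x : Fin n → Bool)) (fun x => ?_) ?_ ?_ h
  · exact Fin.tail_cons (α := fun _ => Bool) false x
  · intro σ hσ
    refine ⟨hσ.1.image _, ?_⟩
    intro x hx y hy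
    obtain ⟨x', hx', rfl⟩ := mem_image.1 hx
    obtain ⟨y', hy', rfl⟩ := mem_image.1 hy
    rw [hd_cons, if_pos rfl, zero_add]
    exact hσ.2 x' hx' y' hy'
  · intro σ hσ
    refine ⟨hσ.1.image _, ?_⟩
    intro x hx y hy
    obtain ⟨x', hx', rfl⟩ := mem_image.1 hx
    obtain ⟨y', hy', rfl⟩ := mem_image.1 hy
    refine le_trans ?_ (hσ.2 x' hx' y' hy')
    have h1 := hd_cons (x' 0) (y' 0) (Fin.tail x') (Fin.tail y')
    rw [Fin.cons_self_tail, Fin.cons_self_tail] at h1
    omega

lemma neg_cons {n : ℕ} (a : Bool) (x : Fin n → Bool) :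
    neg (Fin.cons a x : Fin (n + 1) → Bool) = Fin.cons (!a) (neg x) := by
  funext j
  refine Fin.cases ?_ (fun j => ?_) j
  · rfl
  · rfl

/-- the cross-polytope -/
lemma top_base (r : ℕ) : HomologyNonzero (VRFace (r + 1) r) (2 ^ r - 1) := by
  classical
  have hpos : 0 < 2 ^ r := by positivity
  have hcard : Fintype.card (Fin r → Bool) = 2 ^ r - 1 + 1 := by
    rw [Fintype.card_fun, Fintype.card_bool, Fintype.card_fin]
    omega
  let e : (Fin r → Bool) ≃ Fin (2 ^ r - 1 + 1) := Fintype.equivFinOfCardEq hcard
  let c : Fin (2 ^ r - 1 + 1) → (Fin (r + 1) → Bool) := fun i =>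
    (Fin.cons false (e.symm i) : Fin (r + 1) → Bool)
  have hc0 : ∀ i, c i 0 = false := fun i => rfl
  have hcinj : Function.Injective c := by
    intro i j hij
    have h1 : (Fin.cons false (e.symm i) : Fin (r + 1) → Bool) = Fin.cons false (e.symm j) := hij
    rw [Fin.cons_inj] at h1
    exact e.symm.injective h1.2
  have hne : ∀ i j, neg (c i) ≠ c j := by
    intro i j h
    have := congrFun h 0
    unfold neg at this
    rw [hc0, hc0] at this
    exact absurd this (by decide)
  refine nontrivial_of (VRFace (r + 1) r) c (fun i => neg (c i)) hcinj hne ?_ ?_ ?_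
  · intro i j hij
    apply hcinj
    have h1 : neg (c i) = neg (c j) := hij
    rw [← neg_neg' (c i), h1, neg_neg']
  · intro ε
    refine ⟨⟨_, mem_image.2 ⟨0, mem_univ _, rfl⟩⟩, ?_⟩
    intro x hx y hy
    obtain ⟨i, -, rfl⟩ := mem_image.1 hx
    obtain ⟨j, -, rfl⟩ := mem_image.1 hy
    by_contra hcon
    push Not at hcon
    -- the two points are antipodal
    have key : ∀ x y : Fin (r + 1) → Bool, r < hammingDist x y → neg x = y := by
      intro x y h
      have h1 := hd_neg x y
      exact hammingDist_eq_zero.1 (by omega)
    have h2 := key _ _ hcon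
    by_cases hi : ε i = true
    · by_cases hj : ε j = true
      · rw [if_pos hi, if_pos hj] at h2
        exact hne _ _ h2
      · rw [if_pos hi, if_neg hj] at h2
        have h3 : c i = c j := by rw [← neg_neg' (c i), h2, neg_neg']
        rw [hcinj h3] at hi
        exact hj hi
    · by_cases hj : ε j = true
      · rw [if_neg hi, if_pos hj, neg_neg'] at h2
        rw [hcinj h2] at hi
        exact hi hj
      · rw [if_neg hi, if_neg hj, neg_neg'] at h2
        exact hne _ _ h2.symm
  · intro σ hσ hcσ x hx
    have h0 : x = Fin.cons (x 0) (Fin.tail x) := (Fin.cons_self_tail x).symm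
    by_cases hx0 : x 0 = false
    · refine ⟨e (Fin.tail x), ?_⟩
      change x = (Fin.cons false (e.symm (e (Fin.tail x))) : Fin (r + 1) → Bool)
      rw [Equiv.symm_apply_apply, ← hx0]
      exact h0
    · exfalso
      have hx1 : x 0 = true := by
        revert hx0
        cases x 0 <;> simp
      have h1 : c (e (neg (Fin.tail x))) = neg x := by
        change (Fin.cons false (e.symm (e (neg (Fin.tail x)))) : Fin (r + 1) → Bool) = _
        rw [Equiv.symm_apply_apply]
        conv_rhs => rw [h0, neg_cons, hx1]
        rfl
      have h2 := hσ.2 _ hx _ (hcσ (e (neg (Fin.tail x))))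
      rw [h1] at h2
      have h3 := hd_neg x (neg x)
      rw [hammingDist_self] at h3
      omega

lemma top_cube {n r : ℕ} (h : r + 1 ≤ n) : HomologyNonzero (VRFace n r) (2 ^ r - 1) := by
  obtain ⟨k, rfl⟩ := Nat.exists_eq_add_of_le h
  induction k with
  | zero => exact top_base r
  | succ k ih =>
    have := mono_cube (ih (by omega))
    rwa [show r + 1 + k + 1 = r + 1 + (k + 1) by omega] at this

/-- one step of a path -/
lemma edge {n r : ℕ} (hr : 1 ≤ r) (x : Fin n → Bool) (i : Fin n) :
    ∃ w : (Fin 2 → (Fin n → Bool)) → ℤ, IsChain (VRFace n r) 2 w ∧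
      boundary w = fun v => (if v 0 = Pool.Agent.W273.VR.flip i x then 1 else 0) - (if v 0 = x then 1 else 0) := by
  have hne : x ≠ Pool.Agent.W273.VR.flip i x := by
    intro h
    have := congrFun h i
    unfold Pool.Agent.W273.VR.flip at this
    rw [Function.update_self] at this
    revert this
    cases x i <;> decide
  refine ⟨el ![x, Pool.Agent.W273.VR.flip i x], ⟨?_, ?_, ?_⟩, ?_⟩
  · intro v hv
    obtain ⟨π, hπ⟩ := el_support _ _ hv
    refine ⟨⟨v 0, mem_image_of_mem _ (mem_univ _)⟩, ?_⟩
    have hmem : ∀ y ∈ univ.image v, y = x ∨ y = Pool.Agent.W273.VR.flip i x := by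
      intro y hy
      obtain ⟨j, -, rfl⟩ := mem_image.1 hy
      have h1 := hπ (π.symm j)
      rw [Equiv.apply_symm_apply] at h1
      rw [h1]
      generalize π.symm j = k
      fin_cases k
      · left; rfl
      · right; rfl
    have h1 : hammingDist (Pool.Agent.W273.VR.flip i x) x ≤ 1 := by
      have := hd_flip i x x
      rw [hammingDist_self] at this
      exact this
    intro y hy y' hy'
    rcases hmem y hy with rfl | rfl
    · rcases hmem y' hy' with rfl | rfl
      · rw [hammingDist_self]; omega
      · rw [hammingDist_comm]; omega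
    · rcases hmem y' hy' with rfl | rfl
      · omega
      · rw [hammingDist_self]; omega
  · intro v hv
    obtain ⟨π, hπ⟩ := el_support _ _ hv
    intro a b hab
    apply π.symm.injective
    have h1 : Function.Injective ![x, Pool.Agent.W273.VR.flip i x] := by
      intro j k hjk
      fin_cases j <;> fin_cases k
      · rfl
      · exact absurd hjk hne
      · exact absurd hjk.symm hne
      · rfl
    apply h1
    rw [← hπ, ← hπ, Equiv.apply_symm_apply, Equiv.apply_symm_apply, hab]
  · intro v σ
    exact el_alt _ _ _
  · funext v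
    unfold boundary
    have h1 : ∀ s : Fin n → Bool, el ![x, Pool.Agent.W273.VR.flip i x] (Fin.cons s v) =
        (if s = x then (if v 0 = Pool.Agent.W273.VR.flip i x then 1 else 0) else 0) -
          (if s = Pool.Agent.W273.VR.flip i x then (if v 0 = x then 1 else 0) else 0) := by
      intro s
      unfold el
      rw [Matrix.det_fin_two]
      simp only [Matrix.of_apply, Matrix.cons_val_zero, Matrix.cons_val_one, Fin.cons_zero]
      have h2 : (Fin.cons s v : Fin 2 → (Fin n → Bool)) 1 = v 0 := rfl
      rw [h2]
      simp only [ite_mul, one_mul, zero_mul]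
      first
        | rfl
        | (split_ifs <;> rfl)
        | (split_ifs <;> simp_all)
    rw [sum_congr rfl fun s _ => h1 s, sum_sub_distrib]
    simp

/-- degree zero -/
lemma zero_cube {n r : ℕ} (hr : 1 ≤ r) : ¬ HomologyNonzero (VRFace n r) 0 := by
  classical
  rintro ⟨z, hz, hd, hnb⟩
  have conn : ∀ m : ℕ, ∀ x : Fin n → Bool, (univ.filter fun i => x i = true).card = m →
      ∃ w : (Fin 2 → (Fin n → Bool)) → ℤ, IsChain (VRFace n r) 2 w ∧
      boundary w = fun v => (if v 0 = x then 1 else 0) -
        (if v 0 = (fun _ => false) then 1 else 0) := by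
    intro m
    induction m with
    | zero =>
      intro x hx
      have h1 : x = fun _ => false := by
        rw [card_eq_zero, filter_eq_empty_iff] at hx
        funext i
        have := hx (mem_univ i)
        simpa using this
      refine ⟨0, chain_zero _ _, ?_⟩
      rw [boundary_zero, h1]
      funext v
      simp
    | succ m ih =>
      intro x hx
      obtain ⟨i, hi⟩ := card_pos.1 (by omega : 0 < (univ.filter fun i => x i = true).card)
      have hxi : x i = true := (mem_filter.1 hi).2
      have h1 : (univ.filter fun j => Pool.Agent.W273.VR.flip i x j = true) =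
          (univ.filter fun j => x j = true).erase i := by
        ext j
        simp only [mem_filter, mem_univ, true_and, mem_erase]
        unfold Pool.Agent.W273.VR.flip
        by_cases hj : j = i
        · subst hj
          rw [Function.update_self, hxi]
          simp
        · rw [Function.update_of_ne hj]
          simp [hj]
      obtain ⟨w, hw, hw'⟩ := ih (Pool.Agent.W273.VR.flip i x) (by
        rw [h1, card_erase_of_mem hi, hx]
        omega)
      obtain ⟨w₂, hw₂, hw₂'⟩ := edge hr (Pool.Agent.W273.VR.flip i x) i
      refine ⟨w + w₂, chain_add hw hw₂, ?_⟩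
      have h2 : Pool.Agent.W273.VR.flip i (Pool.Agent.W273.VR.flip i x) = x := by
        funext j
        unfold Pool.Agent.W273.VR.flip
        by_cases h : j = i
        · subst h; simp
        · simp [Function.update_of_ne h]
      rw [boundary_add, hw', hw₂', h2]
      funext v
      simp only [Pi.add_apply]
      ring
  choose w hw hw' using fun x : Fin n → Bool => conn _ x rfl
  have hsum : ∑ x : Fin n → Bool, z (fun _ => x) = 0 := by
    have h1 := congrFun hd (fun i => i.elim0)
    unfold boundary at h1
    rw [Pi.zero_apply] at h1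
    rw [← h1]
    refine sum_congr rfl fun x _ => ?_
    congr 1
    funext j
    have hj : j = 0 := Fin.ext (by omega)
    rw [hj]
    rfl
  apply hnb (∑ x : Fin n → Bool, fun v => z (fun _ => x) * w x v)
  · refine ⟨?_, ?_, ?_⟩
    · intro v hv
      rw [Finset.sum_apply] at hv
      obtain ⟨x, -, hx⟩ := exists_ne_zero_of_sum_ne_zero hv
      exact (hw x).support v (right_ne_zero_of_mul hx)
    · intro v hv
      rw [Finset.sum_apply] at hv
      obtain ⟨x, -, hx⟩ := exists_ne_zero_of_sum_ne_zero hv
      exact (hw x).distinct v (right_ne_zero_of_mul hx)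
    · intro v σ
      rw [Finset.sum_apply, Finset.sum_apply, mul_sum]
      refine sum_congr rfl fun x _ => ?_
      rw [(hw x).alternating]
      ring
  · funext v
    unfold boundary
    simp only [Finset.sum_apply]
    rw [sum_comm]
    have h2 : ∀ x : Fin n → Bool, ∑ y, z (fun _ => x) * w x (Fin.cons y v) =
        z (fun _ => x) * (if v 0 = x then 1 else 0) -
          z (fun _ => x) * (if v 0 = (fun _ => false) then 1 else 0) := by
      intro x
      rw [← mul_sum]
      have h3 := congrFun (hw' x) v
      unfold boundary at h3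
      rw [h3, mul_sub]
    rw [sum_congr rfl fun x _ => h2 x, sum_sub_distrib, ← sum_mul, hsum, zero_mul, sub_zero]
    simp only [mul_ite, mul_one, mul_zero, sum_ite_eq, mem_univ, if_true]
    congr 1
    funext j
    have hj : j = 0 := Fin.ext (by omega)
    rw [hj]

/-- number of entries `true` -/
def ones {n : ℕ} (x : Fin n → Bool) : ℕ := (univ.filter fun i => x i = true).card

lemma even_dist {n : ℕ} (x y : Fin n → Bool) :
    ∃ k, hammingDist x y + 2 * k = ones x + ones y := by
  refine ⟨(univ.filter fun i => x i = true ∧ y i = true).card, ?_⟩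
  unfold ones hammingDist
  simp only [card_filter]
  rw [mul_sum, ← sum_add_distrib, ← sum_add_distrib]
  refine sum_congr rfl fun i _ => ?_
  cases x i <;> cases y i <;> simp

end X225.Vr
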