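import Pool.Agent.X225.Vr.Alt

/-!
Push-forward of alternating chains along simplicial maps; retracts.
-/

set_option autoImplicit false

namespace X225.Vr

open Finset Pool.Agent.W273.VR

variable {V V' : Type} [Fintype V] [DecidableEq V] [Fintype V'] [DecidableEq V']

/-- push-forward of a chain -/
def pf (f : V → V') {m : ℕ} (w : (Fin m → V) → ℤ) (u : Fin m → V') : ℤ :=
  ∑ v, if f ∘ v = u then w v else 0

omit [Fintype V'] in
lemma pf_alt (f : V → V') {m : ℕ} (w : (Fin m → V) → ℤ)
    (hw : ∀ (v : Fin m → V) (σ : Equiv.Perm (Fin m)), w (v ∘ σ) = (σ.sign : ℤ) * w v)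
    (u : Fin m → V') (σ : Equiv.Perm (Fin m)) : pf f w (u ∘ σ) = (σ.sign : ℤ) * pf f w u := by
  unfold pf
  rw [mul_sum]
  refine (Fintype.sum_equiv (σ.symm.arrowCongr (Equiv.refl V)) _ _ ?_).symm
  intro v
  have h1 : (σ.symm.arrowCongr (Equiv.refl V)) v = v ∘ σ := by
    funext i
    simp [Equiv.arrowCongr]
  rw [h1, hw]
  by_cases h : f ∘ v = u
  · rw [if_pos h, if_pos]
    rw [← Function.comp_assoc, h]
  · rw [if_neg h, if_neg, mul_zero]
    intro h2
    apply h
    rw [← Function.comp_assoc] at h2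
    exact σ.surjective.injective_comp_right h2

omit [Fintype V'] in
lemma pf_chain (f : V → V') {K : Finset V → Prop} {K' : Finset V' → Prop}
    (hf : ∀ σ, K σ → K' (σ.image f)) {m : ℕ} {w : (Fin m → V) → ℤ} (hw : IsChain K m w) :
    IsChain K' m (pf f w) := by
  refine ⟨?_, ?_, pf_alt f w hw.alternating⟩
  · intro u hu
    unfold pf at hu
    obtain ⟨v, -, hv⟩ := exists_ne_zero_of_sum_ne_zero hu
    by_cases h : f ∘ v = u
    · rw [if_pos h] at hv
      have h1 := hf _ (hw.support v hv)
      rw [image_image, h] at h1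
      exact h1
    · rw [if_neg h] at hv
      exact absurd rfl hv
  · intro u hu i j hij
    by_contra hne
    apply hu
    have h1 : u ∘ (Equiv.swap i j) = u := by
      funext k
      rw [Function.comp_apply]
      by_cases hk : k = i
      · rw [hk, Equiv.swap_apply_left, hij]
      · by_cases hk' : k = j
        · rw [hk', Equiv.swap_apply_right, hij]
        · rw [Equiv.swap_apply_of_ne_of_ne hk hk']
    have h2 := pf_alt f w hw.alternating u (Equiv.swap i j)
    rw [h1, Equiv.Perm.sign_swap hne] at h2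
    push_cast at h2
    linarith

lemma pf_boundary (f : V → V') {m : ℕ} (w : (Fin (m + 1) → V) → ℤ) :
    boundary (pf f w) = pf f (boundary w) := by
  funext u
  unfold boundary pf
  have h1 : ∀ y : V', (∑ v : Fin (m + 1) → V, if f ∘ v = Fin.cons y u then w v else 0) =
      ∑ x : V, ∑ v : Fin m → V, if f x = y ∧ f ∘ v = u then w (Fin.cons x v) else 0 := by
    intro y
    rw [← Fintype.sum_prod_type' (f := fun (x : V) (v : Fin m → V) =>
      if f x = y ∧ f ∘ v = u then w (Fin.cons x v) else 0)]
    refine (Fintype.sum_equiv (Fin.consEquiv fun _ => V) _ _ ?_).symm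
    rintro ⟨x, v⟩
    have h2 : f ∘ (Fin.consEquiv (fun _ => V) (x, v)) = Fin.cons (f x) (f ∘ v) := by
      funext j
      refine Fin.cases ?_ (fun j => ?_) j
      · rfl
      · rfl
    have h3 : (Fin.cons (f x) (f ∘ v) : Fin (m + 1) → V') = Fin.cons y u ↔
        f x = y ∧ f ∘ v = u := Fin.cons_inj
    rw [h2]
    simp only [h3]
    rfl
  rw [sum_congr rfl fun y _ => h1 y, sum_comm]
  have h2 : ∀ x : V, (∑ y : V', ∑ v : Fin m → V,
      if f x = y ∧ f ∘ v = u then w (Fin.cons x v) else 0) =
      ∑ v : Fin m → V, if f ∘ v = u then w (Fin.cons x v) else 0 := by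
    intro x
    rw [sum_eq_single (f x)]
    · simp
    · intro y _ hy
      refine sum_eq_zero fun v _ => ?_
      rw [if_neg]
      rintro ⟨h, -⟩
      exact hy h.symm
    · intro h
      exact absurd (mem_univ _) h
  rw [sum_congr rfl fun x _ => h2 x, sum_comm]
  refine sum_congr rfl fun v _ => ?_
  by_cases h : f ∘ v = u
  · simp [h]
  · simp [h]

lemma pf_pf (f : V → V') (g : V' → V) (hgf : ∀ x, g (f x) = x) {m : ℕ}
    (w : (Fin m → V) → ℤ) : pf g (pf f w) = w := by
  funext u
  unfold pf
  have h1 : ∀ v' : Fin m → V', (if g ∘ v' = u then ∑ v, (if f ∘ v = v' then w v else 0) else 0) =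
      ∑ v, if f ∘ v = v' then (if g ∘ v' = u then w v else 0) else 0 := by
    intro v'
    by_cases h : g ∘ v' = u
    · simp [h]
    · simp [h]
  rw [sum_congr rfl fun v' _ => h1 v', sum_comm]
  simp only [sum_ite_eq, mem_univ, if_true]
  rw [sum_eq_single u]
  · rw [if_pos]
    funext i
    exact hgf _
  · intro v _ hv
    rw [if_neg]
    intro h
    apply hv
    rw [← h]
    funext i
    exact (hgf _).symm
  · intro h
    exact absurd (mem_univ _) h

/-- homology of a retract -/
theorem retract {K : Finset V → Prop} {K' : Finset V' → Prop} (f : V → V') (g : V' → V)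
    (hgf : ∀ x, g (f x) = x) (hf : ∀ σ, K σ → K' (σ.image f)) (hg : ∀ σ, K' σ → K (σ.image g))
    {q : ℕ} (h : HomologyNonzero K q) : HomologyNonzero K' q := by
  obtain ⟨z, hz, hd, hnb⟩ := h
  refine ⟨pf f z, pf_chain f hf hz, ?_, ?_⟩
  · rw [pf_boundary, hd]
    funext u
    unfold pf
    simp
  · intro w hw he
    apply hnb (pf g w) (pf_chain g hg hw)
    rw [pf_boundary, he, pf_pf f g hgf]

end X225.Vr
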