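import Pool.Agent.X225.Vr.Push
import Pool.Agent.X225.Hm.Form
import Pool.Agent.X225.Hm.CollapseG
import Pool.Agent.W273.VR.Main

/-!
The homology of Vietoris-Rips complexes of subsets of the cube vanishes in degrees `≥ 2 ^ r`.
-/

set_option autoImplicit false

namespace X225.Vr

open Finset Pool.Agent.W273.VR

lemma hdist_eq {n : ℕ} (x y : Fin n → Bool) : X225.Hm.hdist x y = hammingDist x y := by
  classical
  unfold X225.Hm.hdist hammingDist
  rw [← Set.ncard_coe_finset]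
  congr 1
  ext i
  simp

lemma collapse_sub {n : ℕ} (r : ℕ) (X : Finset (Fin n → Bool)) :
    ∃ Q : Finset (Fin n → Bool) → Prop,
      Relation.ReflTransGen Step (fun σ => VRFace n r σ ∧ σ ⊆ X) Q ∧
      ∀ σ, Q σ → σ.card ≤ 2 ^ r := by
  classical
  let K : Finset (Finset (Fin n → Bool)) := univ.filter fun σ => VRFace n r σ ∧ σ ⊆ X
  have hK : ∀ σ, σ ∈ K ↔ VRFace n r σ ∧ σ ⊆ X := by
    intro σ
    simp only [K, mem_filter, mem_univ, true_and]
  have hcl : ∀ σ ∈ K, ∀ v ∈ X, X225.Hm.uu (r + 1) v ∈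
      Submodule.span (X225.Hm.FF Bool n (r + 1))
        ((fun x => X225.Hm.uu (r + 1) x) '' (σ : Set (Fin n → Bool))) →
      ∀ τ : Finset (Fin n → Bool), (∀ y, y ∈ τ ↔ y = v ∨ y ∈ σ) → τ ∈ K := by
    intro σ hσ v hv hspan τ hτ
    rw [hK] at hσ ⊢
    obtain ⟨⟨h1, h2⟩, h3⟩ := hσ
    have h5 : ∀ w ∈ σ, hammingDist v w ≤ r := by
      intro w hw
      rw [← hdist_eq]
      refine X225.Hm.hdist_le_of_mem_span (σ : Set (Fin n → Bool)) _ _ hspan ?_
      intro x hx
      rw [hdist_eq]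
      exact h2 x hx w hw
    refine ⟨⟨⟨v, (hτ v).2 (Or.inl rfl)⟩, ?_⟩, ?_⟩
    · intro x hx y hy
      rw [hτ] at hx hy
      rcases hx with rfl | hx
      · rcases hy with rfl | hy
        · rw [hammingDist_self]
          exact Nat.zero_le _
        · exact h5 y hy
      · rcases hy with rfl | hy
        · rw [hammingDist_comm]
          exact h5 x hx
        · exact h2 x hx y hy
    · intro y hy
      rcases (hτ y).1 hy with rfl | h
      · exact hv
      · exact h3 h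
  letI : LinearOrder (Fin n → Bool) :=
    LinearOrder.lift' (Fintype.equivFin (Fin n → Bool)) (Equiv.injective _)
  obtain ⟨L, hL1, hL2, hL3⟩ := X225.HmG.collapse_low
    (F := X225.Hm.FF Bool n (r + 1)) K X (fun x => X225.Hm.uu (r + 1) x) (2 ^ r)
    Nat.one_le_two_pow (fun σ hσ => ((hK σ).1 hσ).1.1) (fun σ hσ => ((hK σ).1 hσ).2)
    (by
      intro σ hσ ρ hρ hne
      rw [hK] at hσ ⊢
      exact ⟨⟨hne, fun x hx y hy => hσ.1.2 x (hρ hx) y (hρ hy)⟩, hρ.trans hσ.2⟩)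
    (fun v => X225.Hm.uu_ne_zero _)
    (by
      intro σ hσ v hv hspan
      exact hcl σ hσ v hv hspan _ fun y => @mem_insert _ (_) _ _ _)
    (by
      intro σ hσ hind
      rw [hK] at hσ
      obtain ⟨⟨h1, h2⟩, h3⟩ := hσ
      have h5 := X225.Hm.card_le_of_indep (t := r)
        (fun x : (σ : Set (Fin n → Bool)) => (x : Fin n → Bool)) hind (by
        intro x y
        rw [hdist_eq]
        exact h2 _ x.2 _ y.2)
      simpa using h5)
  refine ⟨fun σ => σ ∈ L, ?_, hL3⟩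
  have h1 : (fun σ => VRFace n r σ ∧ σ ⊆ X) = fun σ => σ ∈ K := by
    funext σ
    exact propext (hK σ).symm
  rw [h1]
  refine Relation.ReflTransGen.lift (fun (M : Finset (Finset (Fin n → Bool))) σ => σ ∈ M) ?_ _ _ hL1
  rintro M M' ⟨σ, hσ, τ, hτ, hστ, hc, huniq, rfl⟩
  refine ⟨σ, τ, hσ, hτ, hστ, hc, huniq, ?_⟩
  intro ρ
  simp only [mem_sdiff, mem_insert, mem_singleton, not_or]

theorem vanish {n : ℕ} (r q : ℕ) (X : Finset (Fin n → Bool)) (hq : 2 ^ r ≤ q) :
    ¬ HomologyNonzero (fun σ => VRFace n r σ ∧ σ ⊆ X) q := by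
  rintro ⟨z, hz, hd, hnb⟩
  obtain ⟨Q, hQ, hc⟩ := collapse_sub r X
  obtain ⟨w, hw, hw2⟩ := push hQ (by
    intro σ hσ ρ hρ hne
    exact ⟨⟨hne, fun x hx y hy => hσ.1.2 x (hρ hx) y (hρ hy)⟩, hρ.trans hσ.2⟩) z hz hd
  apply hnb w hw
  funext v
  by_contra hne
  have h1 : (z - boundary w) v ≠ 0 := by
    rw [Pi.sub_apply]
    intro h
    exact hne (sub_eq_zero.1 h).symm
  have h2 := hc _ (hw2.support v h1)
  rw [card_image_of_injective _ (hw2.distinct v h1), card_univ, Fintype.card_fin] at h2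
  omega

end X225.Vr
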